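import Pool.Agent.Helper69.QG.St1

/-!
# Project QD, part C, geometric half: module STZ (stabilisers)
-/

open Complex Set Metric
open scoped ComplexConjugate

namespace Pool.Agent.Helper26.QG

open Pool.Agent.Helper69.QG

theorem gen_mul_self (s : Fin 4) : gen s * gen s = 1 := cs.simple_mul_simple_self s

theorem act_mul (v w : W) (z : DD) : act (v * w) z = act v (act w z) := by
  rw [map_mul]
  rfl

theorem act_one (z : DD) : act 1 z = z := by
  rw [map_one]
  rfl

/-- A point with vanishing product with a root is fixed by the reflection. -/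
theorem fix_of_zero (s : Fin 4) (z : DD) (h : lf (Xm z) (ev s) = 0) : act (gen s) z = z := by
  rw [act_gen]
  apply DD_ext
  rw [Xm_Rp]
  unfold rf
  rw [h, mul_zero, zero_smul, sub_zero]

/-- A fixed point has vanishing product with the root. -/
theorem zero_of_fix (s : Fin 4) (z : DD) (h : act (gen s) z = z) : lf (Xm z) (ev s) = 0 := by
  rw [act_gen] at h
  have h1 : rf s (Xm z) = Xm z := by
    rw [← Xm_Rp, h]
  have h2 : lf (rf s (Xm z)) (ev s) = - lf (Xm z) (ev s) := by
    rw [lf_rf, lf_ev_self]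
    ring
  rw [h1] at h2
  linarith

theorem stz_aux (cls : St_CLS) : ∀ (n : ℕ) (w : W), cs.length w ≤ n → ∀ z : DD, z ∈ Pc →
    act w z ∈ Pc →
    act w z = z ∧ w ∈ Subgroup.closure {v : W | ∃ s, v = gen s ∧ act (gen s) z = z} := by
  intro n
  induction n with
  | zero =>
    intro w hw z _ _
    have h1 : w = 1 := cs.length_eq_zero_iff.mp (Nat.le_zero.mp hw)
    subst h1
    exact ⟨act_one z, Subgroup.one_mem _⟩
  | succ n ih =>
    intro w hw z hz hwz
    by_cases h1 : w = 1
    · subst h1
      exact ⟨act_one z, Subgroup.one_mem _⟩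
    obtain ⟨s, hs⟩ := cs.exists_leftDescent_of_ne_one h1
    have hs' : cs.length (gen s * w) < cs.length w := hs
    have a1 : lf (Xm (act w z : DD)) (ev s) ≤ 0 := (cls w s).2.2 hs' z hz
    have a2 : 0 ≤ lf (Xm (act w z : DD)) (ev s) := hwz s
    have a3 : lf (Xm (act w z : DD)) (ev s) = 0 := le_antisymm a1 a2
    have a4 : act (gen s) (act w z) = act w z := fix_of_zero s _ a3
    have a5 : act (gen s * w) z = act w z := by rw [act_mul, a4]
    obtain ⟨b1, b2⟩ := ih (gen s * w) (by omega) z hz (by rw [a5]; exact hwz)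
    have c1 : act w z = z := a5.symm.trans b1
    have c2 : act (gen s) z = z := by
      rw [c1] at a4
      exact a4
    refine ⟨c1, ?_⟩
    have c3 : w = gen s * (gen s * w) := by
      rw [← mul_assoc, gen_mul_self, one_mul]
    rw [c3]
    exact Subgroup.mul_mem _ (Subgroup.subset_closure ⟨s, rfl, c2⟩) b2

/-- STZ. -/
theorem cSTZ (cls : St_CLS) : St_STZ := by
  have h := stz_aux cls
  refine ⟨fun w z hz hwz => h _ w le_rfl z hz hwz, fun w z hz hwz => ?_⟩
  have hz' : z ∈ Pc := fun s => (hz s).le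
  obtain ⟨-, h2⟩ := h _ w le_rfl z hz' hwz
  have h3 : Subgroup.closure {v : W | ∃ s, v = gen s ∧ act (gen s) z = z} ≤ ⊥ := by
    rw [Subgroup.closure_le]
    rintro v ⟨s, -, hs⟩
    have h4 := zero_of_fix s z hs
    have h5 : 0 < lf (Xm z) (ev s) := hz s
    exact absurd h4 h5.ne'
  exact Subgroup.mem_bot.mp (h3 h2)

end Pool.Agent.Helper26.QG
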